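import Mathlib

/-!
# The bipartition polynomial of a graph is determined by that of its complement
-/

open MvPolynomial Finset
open scoped Classical

namespace Pool.Agent.Results.MP_633bfc_co.Complement

variable {V : Type*} [Fintype V]

/-- the edges of `G` with exactly one endpoint in `W` -/
noncomputable def boundary (G : SimpleGraph V) (W : Finset V) : Finset (Sym2 V) :=
  G.edgeFinset.filter fun e => (∃ u ∈ e, u ∈ W) ∧ ∃ v ∈ e, v ∉ W

/-- the vertices outside `W` joined to a vertex of `W` by an edge of `F` -/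
noncomputable def neighbors (F : Finset (Sym2 V)) (W : Finset V) : Finset V :=
  univ.filter fun v => v ∉ W ∧ ∃ u ∈ W, s(u, v) ∈ F

/-- the bipartition polynomial, with `x = X 0`, `y = X 1`, `z = X 2` -/
noncomputable def B (G : SimpleGraph V) : MvPolynomial (Fin 3) ℤ :=
  ∑ W : Finset V, X 0 ^ W.card *
    ∑ F ∈ (boundary G W).powerset, X 1 ^ (neighbors F W).card * X 2 ^ F.card

/-- the edges between `W` and `U` -/
noncomputable def E (G : SimpleGraph V) (W U : Finset V) : Finset (Sym2 V) :=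
  (boundary G W).filter fun e => ∃ v ∈ e, v ∈ U

/-- the generating function of disjoint pairs `(W, U)` by sizes and number of edges between -/
noncomputable def D (G : SimpleGraph V) : MvPolynomial (Fin 4) ℤ :=
  ∑ W : Finset V, ∑ U ∈ (Wᶜ).powerset,
    X 0 ^ W.card * X 1 ^ U.card * X 2 ^ ((Wᶜ).card - U.card) * X 3 ^ (E G W U).card

lemma E_eq (G : SimpleGraph V) (W U : Finset V) (h : U ⊆ Wᶜ) :
    E G W U = ((W ×ˢ U).filter fun p => G.Adj p.1 p.2).image fun p => s(p.1, p.2) := by
  ext e
  induction e using Sym2.ind with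
  | _ a b =>
    simp only [E, boundary, mem_filter, SimpleGraph.mem_edgeFinset, SimpleGraph.mem_edgeSet,
      Sym2.mem_iff, mem_image, mem_product, Prod.exists]
    constructor
    · rintro ⟨⟨hab, ⟨u, hu, huW⟩, v, hv, hvW⟩, w, hw, hwU⟩
      have hwW : w ∉ W := by simpa using h hwU
      rcases hu with rfl | rfl
      · rcases hw with rfl | rfl
        · exact absurd huW hwW
        · exact ⟨u, w, ⟨⟨huW, hwU⟩, hab⟩, rfl⟩
      · rcases hw with rfl | rfl
        · exact ⟨u, w, ⟨⟨huW, hwU⟩, hab.symm⟩, Sym2.eq_swap⟩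
        · exact absurd huW hwW
    · rintro ⟨u, v, ⟨⟨hu, hv⟩, huv⟩, he⟩
      have hvW : v ∉ W := by simpa using h hv
      rw [Sym2.eq_iff] at he
      rcases he with ⟨rfl, rfl⟩ | ⟨rfl, rfl⟩
      · exact ⟨⟨huv, ⟨u, Or.inl rfl, hu⟩, v, Or.inr rfl, hvW⟩, v, Or.inr rfl, hv⟩
      · exact ⟨⟨huv.symm, ⟨u, Or.inr rfl, hu⟩, v, Or.inl rfl, hvW⟩, v, Or.inl rfl, hv⟩

lemma card_E (G : SimpleGraph V) (W U : Finset V) (h : U ⊆ Wᶜ) :
    (E G W U).card = ((W ×ˢ U).filter fun p => G.Adj p.1 p.2).card := by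
  rw [E_eq G W U h, card_image_of_injOn]
  rintro ⟨a, b⟩ hab ⟨c, d⟩ hcd heq
  simp only [coe_filter, mem_product, Set.mem_ofPred_eq] at hab hcd
  simp only [Sym2.eq_iff] at heq
  rcases heq with ⟨rfl, rfl⟩ | ⟨rfl, rfl⟩
  · rfl
  · have h1 : b ∉ W := by simpa using h hab.1.2
    exact absurd hcd.1.1 h1

lemma card_E_compl (G : SimpleGraph V) (W U : Finset V) (h : U ⊆ Wᶜ) :
    (E Gᶜ W U).card = W.card * U.card - (E G W U).card := by
  have h1 : (E G W U).card + (E Gᶜ W U).card = W.card * U.card := by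
    rw [card_E G W U h, card_E Gᶜ W U h, ← card_product]
    rw [← card_filter_add_card_filter_not (s := W ×ˢ U) (fun p : V × V => G.Adj p.1 p.2)]
    congr 2
    ext ⟨a, b⟩
    simp only [mem_filter, mem_product, SimpleGraph.compl_adj]
    constructor
    · rintro ⟨hab, -, h2⟩
      exact ⟨hab, h2⟩
    · rintro ⟨hab, h2⟩
      refine ⟨hab, ?_, h2⟩
      rintro rfl
      have h1 : a ∉ W := by simpa using h hab.2
      exact h1 hab.1
  omega

lemma neighbors_subset (F : Finset (Sym2 V)) (W : Finset V) : neighbors F W ⊆ Wᶜ := by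
  intro v hv
  simp only [neighbors, mem_filter] at hv
  simpa using hv.2.1

lemma filter_powerset (G : SimpleGraph V) (W U : Finset V) (hU : U ⊆ Wᶜ) :
    ((boundary G W).powerset.filter fun F => neighbors F W ⊆ U) = (E G W U).powerset := by
  ext F
  simp only [mem_filter, mem_powerset]
  constructor
  · rintro ⟨h1, h2⟩ e he
    have h3 := h1 he
    refine mem_filter.2 ⟨h3, ?_⟩
    simp only [boundary, mem_filter] at h3
    obtain ⟨-, ⟨u, hu, huW⟩, v, hv, hvW⟩ := h3
    refine ⟨v, hv, h2 ?_⟩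
    have hne : u ≠ v := by
      rintro rfl
      exact hvW huW
    have he' : e = s(u, v) := (Sym2.mem_and_mem_iff hne).1 ⟨hu, hv⟩
    simp only [neighbors, mem_filter, mem_univ, true_and]
    exact ⟨hvW, u, huW, he' ▸ he⟩
  · intro h1
    refine ⟨h1.trans (filter_subset _ _), ?_⟩
    intro v hv
    simp only [neighbors, mem_filter, mem_univ, true_and] at hv
    obtain ⟨hvW, u, huW, huv⟩ := hv
    have h2 := h1 huv
    simp only [E, mem_filter] at h2
    obtain ⟨-, w, hw, hwU⟩ := h2
    rw [Sym2.mem_iff] at hw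
    rcases hw with rfl | rfl
    · have : w ∉ W := by simpa using hU hwU
      exact absurd huW this
    · exact hwU

/-- the linear map on monomials `x^a y^b z^c ↦ x^a y^b (u-1)^c (y+w)^(n-a-b)` -/
noncomputable def L (n : ℕ) : MvPolynomial (Fin 3) ℤ →ₗ[ℤ] MvPolynomial (Fin 4) ℤ :=
  (basisMonomials (Fin 3) ℤ).constr ℤ fun m =>
    X 0 ^ m 0 * X 1 ^ m 1 * (X 3 - 1) ^ m 2 * (X 1 + X 2) ^ (n - m 0 - m 1)

lemma mono3 (a b c : ℕ) : (X 0 ^ a * (X 1 ^ b * X 2 ^ c) : MvPolynomial (Fin 3) ℤ) =
    basisMonomials (Fin 3) ℤ (Finsupp.single 0 a + Finsupp.single 1 b + Finsupp.single 2 c) := by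
  rw [coe_basisMonomials, X_pow_eq_monomial, X_pow_eq_monomial, X_pow_eq_monomial,
    monomial_mul, monomial_mul, mul_one, mul_one, add_assoc]

lemma L_mono (n a b c : ℕ) : L n (X 0 ^ a * (X 1 ^ b * X 2 ^ c)) =
    X 0 ^ a * X 1 ^ b * (X 3 - 1) ^ c * (X 1 + X 2) ^ (n - a - b) := by
  rw [mono3, L, Module.Basis.constr_basis]
  simp [Finsupp.single_apply]

lemma mono4 (a b c d : ℕ) : (X 0 ^ a * X 1 ^ b * X 2 ^ c * X 3 ^ d : MvPolynomial (Fin 4) ℤ) =
    basisMonomials (Fin 4) ℤ (Finsupp.single 0 a + Finsupp.single 1 b + Finsupp.single 2 c +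
      Finsupp.single 3 d) := by
  rw [coe_basisMonomials, X_pow_eq_monomial, X_pow_eq_monomial, X_pow_eq_monomial,
    X_pow_eq_monomial, monomial_mul, monomial_mul, monomial_mul, mul_one, mul_one, mul_one]

/-- the linear map on monomials `x^k y^j w^l u^e ↦ x^k y^j w^l u^(k j - e)` -/
noncomputable def R : MvPolynomial (Fin 4) ℤ →ₗ[ℤ] MvPolynomial (Fin 4) ℤ :=
  (basisMonomials (Fin 4) ℤ).constr ℤ fun m =>
    X 0 ^ m 0 * X 1 ^ m 1 * X 2 ^ m 2 * X 3 ^ (m 0 * m 1 - m 3)

lemma R_mono (a b c d : ℕ) : R (X 0 ^ a * X 1 ^ b * X 2 ^ c * X 3 ^ d) =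
    X 0 ^ a * X 1 ^ b * X 2 ^ c * X 3 ^ (a * b - d) := by
  rw [mono4, R, Module.Basis.constr_basis]
  simp [Finsupp.single_apply]

/-- the substitution `w ↦ 1 - y`, `u ↦ z + 1` -/
noncomputable def φ : MvPolynomial (Fin 4) ℤ →ₐ[ℤ] MvPolynomial (Fin 3) ℤ :=
  aeval ![X 0, X 1, 1 - X 1, X 2 + 1]

lemma φ_L (n : ℕ) (p : MvPolynomial (Fin 3) ℤ) : φ (L n p) = p := by
  have h : φ.toLinearMap ∘ₗ L n = LinearMap.id := by
    refine (basisMonomials (Fin 3) ℤ).ext fun m => ?_
    rw [LinearMap.comp_apply, L, Module.Basis.constr_basis]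
    have h1 : (basisMonomials (Fin 3) ℤ) m = X 0 ^ m 0 * (X 1 ^ m 1 * X 2 ^ m 2) := by
      rw [mono3]
      congr 1
      ext i
      fin_cases i <;> simp [Finsupp.single_apply]
    rw [h1]
    simp [φ]
    ring
  exact LinearMap.congr_fun h p

lemma R_D (G : SimpleGraph V) : R (D G) = D Gᶜ := by
  unfold D
  rw [map_sum]
  refine sum_congr rfl fun W _ => ?_
  rw [map_sum]
  refine sum_congr rfl fun U hU => ?_
  rw [R_mono, card_E_compl G W U (mem_powerset.1 hU)]

lemma L_B (G : SimpleGraph V) : L (Fintype.card V) (B G) = D G := by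
  unfold B D
  rw [map_sum]
  refine sum_congr rfl fun W _ => ?_
  rw [mul_sum, map_sum]
  have step1 : ∀ F ∈ (boundary G W).powerset,
      L (Fintype.card V) (X 0 ^ W.card * (X 1 ^ (neighbors F W).card * X 2 ^ F.card)) =
      ∑ U ∈ (Wᶜ).powerset.filter (fun U => neighbors F W ⊆ U),
        X 0 ^ W.card * X 1 ^ U.card * X 2 ^ ((Wᶜ).card - U.card) * (X 3 - 1) ^ F.card := by
    intro F _
    have hN := neighbors_subset F W
    rw [L_mono]
    have hcard : Fintype.card V - W.card - (neighbors F W).card = (Wᶜ \ neighbors F W).card := by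
      rw [card_sdiff_of_subset hN, card_compl]
    rw [hcard, ← Finset.sum_pow_mul_eq_add_pow, mul_sum]
    refine sum_bij' (fun T _ => neighbors F W ∪ T) (fun U _ => U \ neighbors F W) ?_ ?_ ?_ ?_ ?_
    · intro T hT
      rw [mem_powerset] at hT
      simp only [mem_filter, mem_powerset]
      exact ⟨union_subset hN (hT.trans sdiff_subset), subset_union_left⟩
    · intro U hU
      simp only [mem_filter, mem_powerset] at hU
      rw [mem_powerset]
      exact sdiff_subset_sdiff hU.1 (Subset.refl _)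
    · intro T hT
      rw [mem_powerset] at hT
      rw [union_sdiff_cancel_left]
      exact disjoint_left.2 fun v h1 h2 => (mem_sdiff.1 (hT h2)).2 h1
    · intro U hU
      simp only [mem_filter, mem_powerset] at hU
      exact union_sdiff_of_subset hU.2
    · intro T hT
      rw [mem_powerset] at hT
      have hdisj : Disjoint (neighbors F W) T :=
        disjoint_left.2 fun v h1 h2 => (mem_sdiff.1 (hT h2)).2 h1
      have h1 : (neighbors F W ∪ T).card = (neighbors F W).card + T.card :=
        card_union_of_disjoint hdisj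
      have h2 : (Wᶜ \ neighbors F W).card - T.card =
          (Wᶜ).card - (neighbors F W ∪ T).card := by
        rw [card_sdiff_of_subset hN, h1]
        omega
      rw [h2, h1, pow_add]
      ring
  rw [sum_congr rfl step1]
  rw [sum_comm' (t' := (Wᶜ).powerset)
    (s' := fun U => (boundary G W).powerset.filter fun F => neighbors F W ⊆ U)]
  · refine sum_congr rfl fun U hU => ?_
    rw [filter_powerset G W U (mem_powerset.1 hU), ← mul_sum]
    congr 1
    have := Finset.sum_pow_mul_eq_add_pow (X 3 - 1 : MvPolynomial (Fin 4) ℤ) 1 (E G W U)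
    simp only [one_pow, mul_one, sub_add_cancel] at this
    exact this
  · intro F U
    simp only [mem_filter]
    tauto

lemma eval_B (G : SimpleGraph V) : eval ![1, 1, 0] (B G) = 2 ^ Fintype.card V := by
  have h : ∀ W : Finset V, eval ![1, 1, (0 : ℤ)] (X 0 ^ W.card *
      ∑ F ∈ (boundary G W).powerset, X 1 ^ (neighbors F W).card * X 2 ^ F.card) = 1 := by
    intro W
    rw [map_mul, map_sum, sum_eq_single (∅ : Finset (Sym2 V))]
    · simp
    · intro F _ hF
      have : F.card ≠ 0 := card_ne_zero.2 (nonempty_iff_ne_empty.2 hF)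
      simp [this]
    · intro h
      exact absurd (empty_mem_powerset _) h
  unfold B
  rw [map_sum, sum_congr rfl fun W _ => h W]
  simp

/-- the bipartition polynomial of `G` is an explicit function of `n` and of the bipartition
polynomial of the complement -/
lemma B_eq (G : SimpleGraph V) : B G = φ (R (L (Fintype.card V) (B Gᶜ))) := by
  rw [L_B, R_D, compl_compl, ← L_B, φ_L]

/-- The bipartition polynomial of a finite simple graph is determined by the bipartition
polynomial of its complement. -/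
theorem result {V W : Type*} [Fintype V] [Fintype W] (G : SimpleGraph V) (H : SimpleGraph W)
    (h : B Gᶜ = B Hᶜ) : B G = B H := by
  have hn : Fintype.card V = Fintype.card W := by
    have h1 := eval_B Gᶜ
    have h2 := eval_B Hᶜ
    rw [h, h2] at h1
    have h3 : (2 : ℕ) ^ Fintype.card W = 2 ^ Fintype.card V := by exact_mod_cast h1
    exact (Nat.pow_right_injective le_rfl h3).symm
  rw [B_eq G, B_eq H, h, hn]

end Pool.Agent.Results.MP_633bfc_co.Complement
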